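import Pool.Agent.Helper126.CpSigma

namespace Pool.Agent.Results.MP_5491ed_gt.SigmaCompactInvariance

/-- If `C_p(C_p(X))` and `C_p(C_p(Y))` are homeomorphic and `Y` is sigma-compact, then `X` is
sigma-compact. -/
theorem result (X Y : Type*) [TopologicalSpace X] [T35Space X] [TopologicalSpace Y] [T35Space Y]
    (h : Nonempty ({g : {f : X → ℝ // Continuous f} → ℝ // Continuous g} ≃ₜ
      {g : {f : Y → ℝ // Continuous f} → ℝ // Continuous g}))
    (hY : SigmaCompactSpace Y) : SigmaCompactSpace X := by
  obtain ⟨h⟩ := h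
  exact Pool.Agent.Helper126.sigmaCompact_of_homeo h.symm

end Pool.Agent.Results.MP_5491ed_gt.SigmaCompactInvariance
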